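import Pool.Agent.H67.PoncPow

namespace Pool.Agent.Results.MP_d21a88_gt.PowerA

open Pool.Agent.H67.PoncPow

theorem result :
    ∀ E Ec : Ellipse, Inside Ec E → ∃ (P : ℂ) (k : ℝ), ∀ (A B C O : ℂ) (r : ℝ),
      Poncelet E Ec A B C → dist A O = r → dist B O = r → dist C O = r →
        dist P O ^ 2 - r ^ 2 = k :=
  both.1

end Pool.Agent.Results.MP_d21a88_gt.PowerA
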