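import Pool.Agent.H67.PoncPow

namespace Pool.Agent.Results.MP_d21a88_gt.PowerB

open Pool.Agent.H67.PoncPow

theorem result :
    ∃ E Ec : Ellipse, Inside Ec E ∧ E.m ≠ Ec.m ∧ E.b * (Ec.a - Ec.c) ≠ Ec.b * (E.a - E.c) ∧
      (∃ A B C, Poncelet E Ec A B C) ∧
      ¬ ∃ (P : ℂ) (k : ℝ), ∀ (A B C O : ℂ) (r : ℝ), Poncelet E Ec A B C →
        dist ((A + B) / 2) O = r → dist ((B + C) / 2) O = r → dist ((C + A) / 2) O = r →
          dist P O ^ 2 - r ^ 2 = k :=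
  both.2

end Pool.Agent.Results.MP_d21a88_gt.PowerB
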